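import Pool.Agent.helper66.LIN.Spec

set_option autoImplicit false

/-!
# Project lin (MP_60c1a7_co), module CHP: pigeonhole
-/

namespace LSH.Lin

lemma CHP_cover {α β : Type} [DecidableEq β] (F : α → Finset β) (L : Multiset α) :
    ∀ A : Finset β, (∀ a ∈ A, ∃ i ∈ L, a ∈ F i) → A.card ≤ (L.map fun i => (F i).card).sum := by
  induction L using Multiset.induction_on with
  | empty =>
    intro A hA
    have h1 : A = ∅ := by
      rw [Finset.eq_empty_iff_forall_notMem]
      intro a ha
      obtain ⟨i, hi, -⟩ := hA a ha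
      exact absurd hi (Multiset.notMem_zero i)
    rw [h1]
    simp
  | cons i L ih =>
    intro A hA
    have h1 := ih (A \ F i) (by
      intro a ha
      rw [Finset.mem_sdiff] at ha
      obtain ⟨j, hj, hj2⟩ := hA a ha.1
      rcases Multiset.mem_cons.1 hj with h | h
      · rw [h] at hj2
        exact absurd hj2 ha.2
      · exact ⟨j, h, hj2⟩)
    rw [Multiset.map_cons, Multiset.sum_cons]
    have h2 : A.card ≤ (F i).card + (A \ F i).card := by
      have h3 : A ⊆ F i ∪ (A \ F i) := by
        intro a ha
        by_cases h : a ∈ F i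
        · exact Finset.mem_union_left _ h
        · exact Finset.mem_union_right _ (Finset.mem_sdiff.mpr ⟨ha, h⟩)
      exact (Finset.card_le_card h3).trans (Finset.card_union_le _ _)
    omega

lemma CHP_sum {α : Type} (f g : α → ℕ) (L : Multiset α) (h : ∀ i ∈ L, f i + 1 ≤ g i) :
    (L.map f).sum + L.card ≤ (L.map g).sum := by
  induction L using Multiset.induction_on with
  | empty => simp
  | cons i L ih =>
    have h1 := ih fun j hj => h j (Multiset.mem_cons_of_mem hj)
    have h2 := h i (Multiset.mem_cons_self i L)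
    rw [Multiset.map_cons, Multiset.sum_cons, Multiset.map_cons, Multiset.sum_cons, Multiset.card_cons]
    omega

theorem CHP (hVSN : VSN_stmt) (hGTF : GTF_stmt) : CHP_stmt := by
  classical
  intro P L σ X hC hL
  obtain ⟨i0, hi0⟩ := Multiset.exists_mem_of_ne_zero hL
  obtain ⟨q, hq, hmax⟩ := Finset.exists_max_image P (fun p => p.1) ⟨i0.1, hC.mem i0 hi0⟩
  by_contra hcon
  push Not at hcon
  have h1 : ∀ i ∈ L, ∀ up, (avs P L σ i.1 up q.1).card < i.2.mm := fun i hi up => hcon q hq i hi up
  have h2 := CHP_cover (fun i : Pt × BT => avs P L σ i.1 true q.1 ∪ avs P L σ i.1 false q.1) L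
    (avl P σ) (by
      intro p hp
      unfold avl at hp
      rw [Finset.mem_filter] at hp
      obtain ⟨i, hi, up, hup⟩ := hVSN P L σ X hC hL p hp.1 hp.2 q.1 (hmax p hp.1)
      refine ⟨i, hi, ?_⟩
      show p ∈ avs P L σ i.1 true q.1 ∪ avs P L σ i.1 false q.1
      cases up
      · exact Finset.mem_union_right _ hup
      · exact Finset.mem_union_left _ hup)
  have h3 := CHP_sum (fun i : Pt × BT => (avs P L σ i.1 true q.1 ∪ avs P L σ i.1 false q.1).card)
    (fun i => i.2.wt) L (by
      intro i hi
      have h4 := h1 i hi true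
      have h5 := h1 i hi false
      obtain ⟨h6, h7, -⟩ := hGTF.2.2.2.2.2.2.2 i.2
      have h8 := Finset.card_union_le (avs P L σ i.1 true q.1) (avs P L σ i.1 false q.1)
      show (avs P L σ i.1 true q.1 ∪ avs P L σ i.1 false q.1).card + 1 ≤ i.2.wt
      omega)
  have h9 := hC.pot
  have h10 : 0 < L.card := Multiset.card_pos.mpr hL
  have h11 : (avl P σ).card ≤ (L.map fun i : Pt × BT =>
    (avs P L σ i.1 true q.1 ∪ avs P L σ i.1 false q.1).card).sum := h2
  omega

end LSH.Lin
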